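import Pool.Agent.Q53.LFB.Disc

/-!
# Cubic fourfolds with small discriminant: the main theorems
-/

set_option autoImplicit false

namespace Pool.Agent.Q168.LG

open Pool.Agent.Q168.CF4

open Pool.Agent.Q53.LFY Pool.Agent.Q53.LFY.CubLat Pool.Agent.Q53.LFA Pool.Agent.Q53.LFB Module

variable {H : CubLat}

/-- the lower bound of the product of a sequence -/
def low : ℕ → ℚ → ℚ
  | 0, _ => 1
  | n + 1, c => c * low n (3 / 4 * c)

theorem low_pos : ∀ (n : ℕ) (c : ℚ), 0 < c → 0 < low n c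
  | 0, _, _ => one_pos
  | n + 1, c, hc => mul_pos hc (low_pos n _ (by positivity))

theorem low_le : ∀ (l : List ℚ) (c : ℚ), 0 < c → (∀ x, l.head? = some x → c ≤ x) →
    l.IsChain (fun x y => 3 / 4 * x ≤ y) → low l.length c ≤ l.prod
  | [], _, _, _, _ => by simp [low]
  | x :: l, c, hc, hx, hch => by
    have h1 : c ≤ x := hx x rfl
    rw [List.length_cons, List.prod_cons, low]
    have h2 : low l.length (3 / 4 * c) ≤ l.prod := by
      refine low_le l (3 / 4 * c) (by positivity) (fun y hy => ?_) hch.tail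
      cases l with
      | nil => simp at hy
      | cons z l =>
        simp only [List.head?_cons, Option.some.injEq] at hy
        rw [List.isChain_cons_cons] at hch
        rw [← hy]
        linarith [hch.1]
    exact mul_le_mul h1 h2 (low_pos _ _ (by positivity)).le (by linarith)

/-- the bound of the discriminant -/
def bound : ℕ → ℤ
  | 2 => 61
  | 3 => 68
  | 4 => 80
  | 5 => 136
  | 6 => 172
  | 7 => 164
  | 8 => 116
  | _ => 0

theorem head_lt {l : List ℚ} {n : ℕ} {d : ℤ} {x : ℚ} (hn : 3 ≤ n) (hl : l.length = n)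
    (hch : l.IsChain (fun x y => 3 / 4 * x ≤ y)) (hx : l.head? = some x)
    (hp : 3 * l.prod = 3 ^ n * (d : ℚ)) (hd0 : 0 < d) (hd : d ≤ bound (n + 1)) : x < 12 := by
  by_contra hcon
  push Not at hcon
  have h1 := low_le l 12 (by norm_num) (fun y hy => by
    rw [hx] at hy
    simp only [Option.some.injEq] at hy
    rw [← hy]
    exact hcon) hch
  rw [hl] at h1
  have hdQ : (d : ℚ) ≤ bound (n + 1) := by exact_mod_cast hd
  match n, hn with
  | 3, _ => norm_num [low, bound] at h1 hdQ hp; linarith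
  | 4, _ => norm_num [low, bound] at h1 hdQ hp; linarith
  | 5, _ => norm_num [low, bound] at h1 hdQ hp; linarith
  | 6, _ => norm_num [low, bound] at h1 hdQ hp; linarith
  | 7, _ => norm_num [low, bound] at h1 hdQ hp; linarith
  | n + 8, _ =>
    simp only [bound] at hd
    omega

theorem bound_le (n : ℕ) (hn : 4 ≤ n) : bound n ≤ planeBound n := by
  match n, hn with
  | 4, _ => decide
  | 5, _ => decide
  | 6, _ => decide
  | 7, _ => decide
  | 8, _ => decide
  | n + 9, _ => exact le_refl _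

/-- **The case of rank at least four.** -/
theorem inK_of_disc_small (hH : H.IsCubic) {r : ℕ} (hr : 4 ≤ r) (b : Basis (Fin r) ℤ H.hodge)
    (hd : discA b ≤ bound r)
    (hev : ∀ P, H.IsPl P → ∀ T, H.IsHodge T → Even (D H P T))
    {w : Fin 23 → ℤ} (hw : H.IsHodge w) (h4 : ¬ (4 : ℤ) ∣ H.disc w) : InK H := by
  have hpos := discA_pos hH b
  match r, hr, b with
  | n + 4, _, b =>
    obtain ⟨l, hl1, hl2, hl3⟩ := exists_seq hH b
    obtain ⟨x, hx⟩ : ∃ x, l.head? = some x := by
      cases l with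
      | nil => simp at hl1
      | cons a l => exact ⟨a, rfl⟩
    obtain ⟨v, hv, hv0, hvx, hmin, hcos⟩ := hl3.head x hx
    have h12 := head_lt (by omega) hl1 hl3.chain hx hl2 hpos hd
    have hv12 : H.disc v < 12 := by
      have : (H.disc v : ℚ) < 12 := by rw [hvx]; exact h12
      exact_mod_cast this
    have hv8 : H.disc v = 8 := by
      have h2 := disc_val hH hv
      omega
    obtain ⟨P, -, -, hP, -⟩ := pl_of_eight hH hv hv8
    exact inK_of_plane hH b (hd.trans (bound_le _ (by omega))) hP hev hw h4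

/-- a reduced pair of vectors in rank three -/
theorem exists_pair (hH : H.IsCubic) (b : Basis (Fin 3) ℤ H.hodge) :
    ∃ v w, H.IsHodge v ∧ H.IsHodge w ∧ 0 < H.disc v ∧ 0 < H.disc w ∧ H.disc v ≤ H.disc w ∧
      (∀ u, H.IsHodge u → ∃ k x y : ℤ, u = k • H.h + x • v + y • w) ∧
      (2 * D H w v) ^ 2 ≤ H.disc v ^ 2 ∧
      H.disc v * H.disc w - D H w v ^ 2 = 3 * discA b := by
  have hB := isForm hH
  have hv : (⟨H.h, hH.h_hodge⟩ : H.hodge) ≠ 0 := by
    intro h0
    have h1 : H.h = 0 := congrArg Subtype.val h0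
    have h2 := hH.h_self
    rw [h1, ip_zero_left] at h2
    omega
  obtain ⟨c, hc1, hc2, hB', hdet⟩ := Red.step hB b hv (by
    intro k m x hk h
    obtain ⟨t, -, ht⟩ := hH.h_prim (g := k) (c := m) (z := (x : Fin 23 → ℤ)) hk (by
      have := congrArg Subtype.val h
      simpa using this)
    exact ⟨t, Subtype.ext (by simpa using ht)⟩)
  have hg : (Red.gram (fun x y : H.hodge => H.ip (x : Fin 23 → ℤ) (y : Fin 23 → ℤ)) b).det =
      discA b := rfl
  simp only [hH.h_self] at hdet hB'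
  rw [hg] at hdet
  have hD : ∀ x y : Fin 2 → ℤ, 3 * H.ip (Red.comb c x : H.hodge) (Red.comb c y : H.hodge) -
      H.ip (Red.comb c x : H.hodge) H.h * H.ip (Red.comb c y : H.hodge) H.h =
      D H (Red.comb c x : H.hodge) (Red.comb c y : H.hodge) := fun x y => rfl
  simp only [hD] at hB' hdet
  obtain ⟨v, hv0, hmin⟩ := Red.exists_min hB' (u := Pi.single 0 1) (by
    intro h
    have := congrFun h 0
    simp at this)
  obtain ⟨c', hc1', hc2', hB'', hdet'⟩ := Red.step hB' (Pi.basisFun ℤ (Fin 2)) hv0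
    (Red.prim_of_min hB' hv0 hmin)
  have ha0 := hB'.pos v hv0
  beta_reduce at ha0 hdet' hmin
  obtain ⟨a, ha⟩ : ∃ a, a = D H (Red.comb c v : H.hodge) (Red.comb c v : H.hodge) := ⟨_, rfl⟩
  rw [← ha] at ha0 hdet'
  have e0 : Red.comb c' ((Pi.basisFun ℤ (Fin 1)) 0) = c' 0 := by
    rw [Pi.basisFun_apply, Red.comb_single]
  have hdet1 : a * D H (Red.comb c (c' 0) : H.hodge) (Red.comb c (c' 0) : H.hodge) -
      D H (Red.comb c (c' 0) : H.hodge) (Red.comb c v : H.hodge) *
      D H (Red.comb c (c' 0) : H.hodge) (Red.comb c v : H.hodge) = 3 * discA b := by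
    rw [Matrix.det_fin_one] at hdet'
    simp only [Red.gram, Matrix.of_apply, e0] at hdet'
    rw [pow_one] at hdet'
    have h1 := mul_left_cancel₀ ha0.ne' hdet'
    rw [h1]
    have h2 : (3 : ℤ) * (Red.gram (fun x y : Fin 2 → ℤ => D H (Red.comb c x : H.hodge)
      (Red.comb c y : H.hodge)) (Pi.basisFun ℤ (Fin 2))).det = 3 ^ 2 * discA b := hdet
    simp only [Red.gram] at h2
    linarith
  obtain ⟨t, ht⟩ := Red.near a (D H (Red.comb c (c' 0) : H.hodge) (Red.comb c v : H.hodge)) ha0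
  have hw0 : c' 0 + t • v ≠ 0 := by
    intro h0
    have h1 := hc2' t ((Pi.basisFun ℤ (Fin 1)) 0) (by rw [e0, add_comm]; exact h0)
    have h2 := congrFun h1.2 0
    simp at h2
  have ew : ((Red.comb c (c' 0 + t • v) : H.hodge) : Fin 23 → ℤ) =
      (Red.comb c (c' 0) : H.hodge) + t • (Red.comb c v : H.hodge) := by
    rw [Red.comb_add, Red.comb_smul]
    rfl
  have hDw : D H (Red.comb c (c' 0 + t • v) : H.hodge) (Red.comb c v : H.hodge) =
      D H (Red.comb c (c' 0) : H.hodge) (Red.comb c v : H.hodge) + t * a := by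
    rw [ew, D_add_left, D_smul_left, ← ha]
  refine ⟨(Red.comb c v : H.hodge), (Red.comb c (c' 0 + t • v) : H.hodge), (Red.comb c v).2,
    (Red.comb c (c' 0 + t • v)).2, ?_, ?_, ?_, fun u hu => ?_, ?_, ?_⟩
  · rw [← D_self hH, ← ha]; exact ha0
  · rw [← D_self hH]; exact hB'.pos _ hw0
  · rw [← D_self hH, ← D_self hH]; exact hmin _ hw0
  · obtain ⟨k, x, hx⟩ := hc1 ⟨u, hu⟩
    obtain ⟨m, z, hz⟩ := hc1' x
    have hz2 : Red.comb c' z = z 0 • c' 0 := by
      simp [Red.comb]
    have h1 : u = k • H.h + (Red.comb c x : H.hodge) := by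
      have := congrArg Subtype.val hx
      simpa using this
    refine ⟨k, m - z 0 * t, z 0, ?_⟩
    rw [h1, hz, hz2, ew, Red.comb_add, Red.comb_smul, Red.comb_smul]
    simp only [Submodule.coe_add, Submodule.coe_smul]
    module
  · rw [hDw, ← D_self hH, ← ha]
    exact ht
  · rw [hDw, ← D_self hH, ← D_self hH, ← ha, ew]
    rw [← hdet1]
    simp only [D_add_left, D_add_right hH, D_smul_left, D_smul_right hH, ← ha]
    rw [D_comm hH ((Red.comb c v : H.hodge) : Fin 23 → ℤ) ((Red.comb c (c' 0) : H.hodge) : Fin 23 → ℤ)]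
    ring

theorem disc_h (hH : H.IsCubic) : H.disc H.h = 0 := by
  rw [disc, hH.h_self]; norm_num

theorem disc_span (hH : H.IsCubic) (k x y : ℤ) (v w : Fin 23 → ℤ) :
    H.disc (k • H.h + x • v + y • w) =
      x ^ 2 * H.disc v + y ^ 2 * H.disc w + 2 * (x * y * D H w v) := by
  rw [disc_comb3 hH, disc_h hH, D_h hH, D_h hH, D_comm hH v w]
  ring

/-- the obstruction at the prime three -/
theorem not_admissible {d x y s : ℤ} (hs : s = 1 ∨ s = -1)
    (hd : d = 6 * (2 * x ^ 2 + 2 * y ^ 2 + s * (x * y))) : ¬ Admissible d := by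
  rintro ⟨h6, h4, h9, hp⟩
  obtain ⟨e, he⟩ : ∃ e, e = 2 * x ^ 2 + 2 * y ^ 2 + s * (x * y) := ⟨_, rfl⟩
  rw [← he] at hd
  have he0 : 0 < e := by omega
  have h1 : e.toNat % 3 = 1 := by
    refine one_mod_three _ (by omega) fun p hpp hpe => ?_
    have h2 : (p : ℤ) ∣ e := by
      have : (p : ℤ) ∣ (e.toNat : ℤ) := by exact_mod_cast hpe
      rwa [Int.toNat_of_nonneg he0.le] at this
    have hp2 : p ≠ 2 := by
      rintro rfl
      apply h4
      obtain ⟨q, hq⟩ := h2
      exact ⟨3 * q, by rw [hd, hq]; push_cast; ring⟩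
    have hp3 : p ≠ 3 := by
      rintro rfl
      apply h9
      obtain ⟨q, hq⟩ := h2
      exact ⟨2 * q, by rw [hd, hq]; push_cast; ring⟩
    have h3 := hp p hpp hp2 (by rw [hd]; exact h2.mul_left 6)
    have h4 : p % 3 ≠ 0 := fun h => hp3 ((Nat.prime_dvd_prime_iff_eq Nat.prime_three hpp).1
      (Nat.dvd_of_mod_eq_zero h)).symm
    omega
  have h2 : e % 3 = 1 := by omega
  have hx : x % 3 = 0 ∨ x % 3 = 1 ∨ x % 3 = 2 := by omega
  have hy : y % 3 = 0 ∨ y % 3 = 1 ∨ y % 3 = 2 := by omega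
  have key : e % 3 = (2 * (x % 3) ^ 2 + 2 * (y % 3) ^ 2 + s * ((x % 3) * (y % 3))) % 3 := by
    rw [he]
    simp [Int.add_emod, Int.mul_emod, pow_two]
  rw [h2] at key
  rcases hs with rfl | rfl <;> rcases hx with hx | hx | hx <;> rcases hy with hy | hy | hy <;>
    rw [hx, hy] at key <;> norm_num at key

/-- **The case of rank three.** -/
theorem inK_three (hH : H.IsCubic) (b : Basis (Fin 3) ℤ H.hodge) (hd : discA b ≤ 68)
    (hev : ∀ P, H.IsPl P → ∀ T, H.IsHodge T → Even (D H P T)) (hK : H.HasK3) : InK H := by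
  obtain ⟨v, w, hv, hw, hv0, hw0, hvw, hspan, hred, hdet⟩ := exists_pair hH b
  obtain ⟨u, hu, hsat, hadm⟩ := hK
  have hvv := disc_val hH hv
  have hwv := disc_val hH hw
  have hp := disc_val hH (H.isHodge_add (H.isHodge_smul 1 hv) (H.isHodge_smul 1 hw))
  have hm := disc_val hH (H.isHodge_add (H.isHodge_smul 1 hv) (H.isHodge_smul (-1) hw))
  have hpK := fun h => inK_of_disc hH (H.isHodge_add (H.isHodge_smul 1 hv) (H.isHodge_smul 1 hw)) h
  have hmK := fun h =>
    inK_of_disc hH (H.isHodge_add (H.isHodge_smul 1 hv) (H.isHodge_smul (-1) hw)) h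
  rw [disc_comb2 hH, D_comm hH v w] at hp hm hpK hmK
  obtain ⟨k, x, y, huxy⟩ := hspan u hu
  have hdu : H.disc u = x ^ 2 * H.disc v + y ^ 2 * H.disc w + 2 * (x * y * D H w v) := by
    rw [huxy]; exact disc_span hH k x y v w
  have hvK := fun h => inK_of_disc hH hv h
  have hwK := fun h => inK_of_disc hH hw h
  have hpl : H.disc v = 8 → InK H := by
    intro h8
    obtain ⟨P, -, -, hP, -⟩ := pl_of_eight hH hv h8
    exact inK_of_plane hH b (hd.trans (by decide)) hP hev hu hadm.2.1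
  obtain ⟨a, ha⟩ : ∃ a, a = H.disc v := ⟨_, rfl⟩
  obtain ⟨c, hc⟩ : ∃ c, c = H.disc w := ⟨_, rfl⟩
  obtain ⟨e, he⟩ : ∃ e, e = D H w v := ⟨_, rfl⟩
  rw [← ha] at hv0 hvw hred hdet hvv hp hm hpK hmK hdu hvK hpl
  rw [← hc] at hw0 hvw hdet hwv hp hm hpK hmK hdu hwK
  rw [← he] at hred hdet hp hm hpK hmK hdu
  have h1 : 4 * e ^ 2 ≤ a ^ 2 := by linarith
  have h2 : a * c ≤ 204 + e ^ 2 := by linarith
  have h3 : a ^ 2 ≤ 272 := by
    have h31 : a * a ≤ a * c := mul_le_mul_of_nonneg_left hvw hv0.le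
    have h32 : a ^ 2 = a * a := pow_two a
    omega
  have h4 : a ≤ 16 := by
    by_contra hcon
    have : 17 * 17 ≤ a * a := mul_le_mul (by omega) (by omega) (by norm_num) (by omega)
    have h32 : a ^ 2 = a * a := pow_two a
    omega
  have h5 : a = 8 ∨ a = 12 ∨ a = 14 := by
    clear hp hm hpK hmK hdu hvK hpl hwv hdet h2 h1 hwK hred
    omega
  rcases h5 with h5 | h5 | h5
  · exact hpl h5
  · rw [h5] at h1 h2 hp hm hpK hmK hdu hdet
    have he6 : -6 ≤ e ∧ e ≤ 6 := abs_le.1 (abs_le_of_sq_le_sq (by omega) (by norm_num))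
    have h6 : c ≤ 20 := by
      clear hp hm hpK hmK hdu hvK hpl hwv hwK hred
      omega
    have h7 : c = 12 ∨ c = 14 ∨ c = 18 ∨ c = 20 := by
      clear hp hm hpK hmK hdu hvK hpl hwK hred h1 h2 hvv
      omega
    obtain ⟨he1, he2⟩ := he6
    rcases h7 with h7 | h7 | h7 | h7
    · rw [h7] at hp hm hdu
      have h8 : e = -6 ∨ e = -3 ∨ e = 0 ∨ e = 3 ∨ e = 6 := by
        clear hpK hmK hdu hvK hpl hwK hred h1 h2 hvv hwv
        omega
      rcases h8 with h8 | h8 | h8 | h8 | h8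
      · exfalso
        apply hadm.2.1
        rw [hdu, h8]
        exact ⟨3 * x ^ 2 + 3 * y ^ 2 - 3 * x * y, by ring⟩
      · exfalso
        refine not_admissible (x := x) (y := y) (Or.inr rfl) ?_ hadm
        rw [hdu, h8]; ring
      · exfalso
        apply hadm.2.1
        rw [hdu, h8]
        exact ⟨3 * x ^ 2 + 3 * y ^ 2, by ring⟩
      · exfalso
        refine not_admissible (x := x) (y := y) (Or.inl rfl) ?_ hadm
        rw [hdu, h8]; ring
      · exfalso
        apply hadm.2.1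
        rw [hdu, h8]
        exact ⟨3 * x ^ 2 + 3 * y ^ 2 + 3 * x * y, by ring⟩
    · exact hwK (Or.inl h7)
    · rw [h7] at hp hm hpK hmK h2
      have h8 : e = -6 ∨ e = 6 := by
        have h9 : 12 ≤ e ^ 2 := by linarith
        have h10 : e % 3 = 0 := by
          clear hpK hmK hdu hvK hpl hwK hred h1 h2 hvv hwv h9
          omega
        clear hpK hmK hdu hvK hpl hwK hred h1 h2 hvv hwv hp hm
        obtain ⟨q, hq⟩ : ∃ q, e = 3 * q := ⟨e / 3, by omega⟩
        have h11 : q = -2 ∨ q = -1 ∨ q = 0 ∨ q = 1 ∨ q = 2 := by omega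
        rcases h11 with h | h | h | h | h <;> rw [h] at hq <;> rw [hq] at h9 <;> omega
      rcases h8 with h8 | h8
      · refine hmK (Or.inr (Or.inr (Or.inr ?_)))
        rw [h8]; norm_num
      · refine hpK (Or.inr (Or.inr (Or.inr ?_)))
        rw [h8]; norm_num
    · rw [h7] at hdu h2
      have h8 : e = -6 ∨ e = 6 := by
        have h9 : 36 ≤ e ^ 2 := by linarith
        clear hpK hmK hdu hvK hpl hwK hred h1 h2 hvv hwv hp hm
        by_contra hcon
        have h10 : |e| ≤ 5 := abs_le.2 (by omega)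
        have h11 : e ^ 2 ≤ 5 ^ 2 := sq_le_sq' (by have := abs_le.1 h10; omega) (by have := abs_le.1 h10; omega)
        omega
      exfalso
      apply hadm.2.1
      rcases h8 with h8 | h8
      · rw [hdu, h8]
        exact ⟨3 * x ^ 2 + 5 * y ^ 2 - 3 * x * y, by ring⟩
      · rw [hdu, h8]
        exact ⟨3 * x ^ 2 + 5 * y ^ 2 + 3 * x * y, by ring⟩
  · exact hvK (Or.inl h5)

/-- **The case of rank two.** -/
theorem inK_two (hH : H.IsCubic) (b : Basis (Fin 2) ℤ H.hodge) (hd : discA b ≤ 61)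
    (hK : H.HasK3) : InK H := by
  have hB := isForm hH
  have hv : (⟨H.h, hH.h_hodge⟩ : H.hodge) ≠ 0 := by
    intro h0
    have h1 : H.h = 0 := congrArg Subtype.val h0
    have h2 := hH.h_self
    rw [h1, ip_zero_left] at h2
    omega
  obtain ⟨c, hc1, hc2, hB', hdet⟩ := Red.step hB b hv (by
    intro k m x hk h
    obtain ⟨t, -, ht⟩ := hH.h_prim (g := k) (c := m) (z := (x : Fin 23 → ℤ)) hk (by
      have := congrArg Subtype.val h
      simpa using this)
    exact ⟨t, Subtype.ext (by simpa using ht)⟩)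
  have hg : (Red.gram (fun x y : H.hodge => H.ip (x : Fin 23 → ℤ) (y : Fin 23 → ℤ)) b).det =
      discA b := rfl
  simp only [hH.h_self] at hdet hB'
  rw [hg, Matrix.det_fin_one] at hdet
  have e0 : Red.comb c ((Pi.basisFun ℤ (Fin 1)) 0) = c 0 := by
    rw [Pi.basisFun_apply, Red.comb_single]
  simp only [Red.gram, Matrix.of_apply, e0] at hdet
  have h0 : H.disc (c 0 : Fin 23 → ℤ) = discA b := by
    rw [← D_self hH, D]
    linarith
  obtain ⟨u, hu, hsat, hadm⟩ := hK
  obtain ⟨k, x, hx⟩ := hc1 ⟨u, hu⟩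
  have hx2 : Red.comb c x = x 0 • c 0 := by simp [Red.comb]
  have h1 : u = x 0 • (c 0 : Fin 23 → ℤ) + k • H.h := by
    have := congrArg Subtype.val hx
    rw [hx2] at this
    rw [add_comm]
    simpa using this
  have h2 : H.disc u = (x 0) ^ 2 * H.disc (c 0 : Fin 23 → ℤ) := by
    rw [h1, hH.disc_comb]
  have hx0 : x 0 ≠ 0 := by
    intro h
    rw [h] at h2
    have := hadm.1
    rw [h2] at this
    omega
  obtain ⟨a', b', hab⟩ := hsat (c 0 : Fin 23 → ℤ) (x 0) (-k) 1 hx0 (by
    rw [h1, one_smul, neg_smul]; abel)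
  have h3 : H.disc (c 0 : Fin 23 → ℤ) = b' ^ 2 * H.disc u := by
    have : (c 0 : Fin 23 → ℤ) = b' • u + a' • H.h := by rw [hab, add_comm]
    rw [this, hH.disc_comb]
  have h4 : H.disc u ≤ H.disc (c 0 : Fin 23 → ℤ) := by
    have h5 : b' ≠ 0 := by
      rintro rfl
      rw [h3] at h2
      have := hadm.1
      rw [h2] at this
      omega
    have h6 : 1 ≤ b' ^ 2 := by
      have : 0 < b' ^ 2 := by positivity
      omega
    have := hadm.1
    nlinarith
  have h5 := disc_val hH hu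
  have h6 : H.disc u ≤ 61 := by rw [h0] at h4; omega
  obtain ⟨d, hd'⟩ : ∃ d, d = H.disc u := ⟨_, rfl⟩
  rw [← hd'] at h5 h6 hadm
  obtain ⟨a1, a2, a3, a4⟩ := hadm
  have h7 : d = 14 ∨ d = 18 ∨ d = 26 ∨ d = 30 ∨ d = 38 ∨ d = 42 ∨ d = 50 ∨ d = 54 := by omega
  rcases h7 with h7 | h7 | h7 | h7 | h7 | h7 | h7 | h7
  · exact inK_of_disc hH hu (by omega)
  · exfalso; exact a3 (by rw [h7]; norm_num)
  · exact inK_of_disc hH hu (by omega)
  · exfalso; exact a4 5 (by norm_num) (by norm_num) (by rw [h7]; norm_num) (by norm_num)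
  · exact inK_of_disc hH hu (by omega)
  · exact inK_of_disc hH hu (by omega)
  · exfalso; exact a4 5 (by norm_num) (by norm_num) (by rw [h7]; norm_num) (by norm_num)
  · exfalso; exact a3 (by rw [h7]; norm_num)

/-- **The main theorem.** -/
theorem inK_of_bound (hH : H.IsCubic) {r : ℕ} (b : Basis (Fin r) ℤ H.hodge)
    (hd : discA b ≤ bound r) (hev : ∀ P, H.IsPl P → ∀ T, H.IsHodge T → Even (D H P T))
    (hK : H.HasK3) : InK H := by
  have hpos := discA_pos hH b
  match r, b with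
  | 0, b => simp only [bound] at hd; omega
  | 1, b => simp only [bound] at hd; omega
  | 2, b => exact inK_two hH b hd hK
  | 3, b => exact inK_three hH b hd hev hK
  | n + 4, b =>
    obtain ⟨u, hu, -, hadm⟩ := hK
    exact inK_of_disc_small hH (by omega) b hd hev hu hadm.2.1

end Pool.Agent.Q168.LG
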