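import Pool.Agent.Q53.LFB.Disc

/-!
# Divisibility of the discriminant by four
-/

set_option autoImplicit false

namespace Pool.Agent.Q168.LG

open Pool.Agent.Q168.CF4

open Pool.Agent.Q53.LFY Pool.Agent.Q53.LFY.CubLat Pool.Agent.Q53.LFA Pool.Agent.Q53.LFB Module

variable {H : CubLat}

/-- a determinant with an even row, the same even column and the corner divisible by four -/
theorem four_dvd_det {n : ℕ} (M : Matrix (Unit ⊕ Fin n) (Unit ⊕ Fin n) ℤ)
    (h0 : (4 : ℤ) ∣ M (Sum.inl ()) (Sum.inl ()))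
    (h1 : ∀ j, (2 : ℤ) ∣ M (Sum.inl ()) (Sum.inr j)) (h2 : ∀ i, (2 : ℤ) ∣ M (Sum.inr i) (Sum.inl ())) :
    (4 : ℤ) ∣ M.det := by
  obtain ⟨a, ha⟩ := h0
  choose r hr using h1
  choose c hc using h2
  let N : Matrix (Unit ⊕ Fin n) (Unit ⊕ Fin n) ℤ := Matrix.fromBlocks (Matrix.of fun _ _ => a)
    (Matrix.of fun _ j => r j) (Matrix.of fun i _ => c i) (Matrix.of fun i j => M (Sum.inr i) (Sum.inr j))
  let E : Matrix (Unit ⊕ Fin n) (Unit ⊕ Fin n) ℤ := Matrix.diagonal (Sum.elim (fun _ => 2) fun _ => 1)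
  have hM : M = E * N * E := by
    ext i j
    rw [Matrix.mul_diagonal, Matrix.diagonal_mul]
    rcases i with i | i <;> rcases j with j | j
    · simp only [N, Matrix.fromBlocks_apply₁₁, Matrix.of_apply, Sum.elim_inl, ha]; ring
    · simp only [N, Matrix.fromBlocks_apply₁₂, Matrix.of_apply, Sum.elim_inl, Sum.elim_inr, hr]; ring
    · simp only [N, Matrix.fromBlocks_apply₂₁, Matrix.of_apply, Sum.elim_inl, Sum.elim_inr, hc]; ring
    · simp only [N, Matrix.fromBlocks_apply₂₂, Matrix.of_apply, Sum.elim_inr]; ring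
  have hE : E.det = 2 := by
    rw [Matrix.det_diagonal, Fintype.prod_sum_type]
    simp
  rw [hM, Matrix.det_mul, Matrix.det_mul, hE]
  exact ⟨N.det, by ring⟩

/-- if `T.(h - P)` is even for all `T`, the discriminant of `A(X)` is divisible by four -/
theorem four_dvd_discA (hH : H.IsCubic) {r : ℕ} (b : Basis (Fin r) ℤ H.hodge)
    {P : Fin 23 → ℤ} (hP : H.IsPl P) (hev : ∀ T, H.IsHodge T → Even (D H P T)) :
    (4 : ℤ) ∣ discA b := by
  match r, b with
  | 0, b =>
    exfalso
    have : (⟨H.h, hH.h_hodge⟩ : H.hodge) = 0 := by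
      rw [← b.sum_repr ⟨H.h, hH.h_hodge⟩]
      simp
    have h1 : H.h = 0 := congrArg Subtype.val this
    have h2 := hH.h_self
    rw [h1, ip_zero_left] at h2
    omega
  | n + 1, b =>
    have hB := isForm hH
    have hv : (⟨H.h, hH.h_hodge⟩ : H.hodge) ≠ 0 := by
      intro h0
      have h1 : H.h = 0 := congrArg Subtype.val h0
      have h2 := hH.h_self
      rw [h1, ip_zero_left] at h2
      omega
    obtain ⟨c, hc1, hc2, hB', hdet⟩ := Red.step hB b hv (by
      intro k m x hk h
      obtain ⟨t, -, ht⟩ := hH.h_prim (g := k) (c := m) (z := (x : Fin 23 → ℤ)) hk (by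
        have := congrArg Subtype.val h
        simpa using this)
      exact ⟨t, Subtype.ext (by simpa using ht)⟩)
    have hg : (Red.gram (fun x y : H.hodge => H.ip (x : Fin 23 → ℤ) (y : Fin 23 → ℤ)) b).det =
        discA b := rfl
    simp only [hH.h_self] at hdet hB'
    rw [hg] at hdet
    have hD : ∀ x y : Fin n → ℤ, 3 * H.ip (Red.comb c x : H.hodge) (Red.comb c y : H.hodge) -
        H.ip (Red.comb c x : H.hodge) H.h * H.ip (Red.comb c y : H.hodge) H.h =
        D H (Red.comb c x : H.hodge) (Red.comb c y : H.hodge) := fun x y => rfl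
    simp only [hD] at hB' hdet
    obtain ⟨k, p, hp⟩ := hc1 ⟨P, hP.1⟩
    have hp1 : P = k • H.h + (Red.comb c p : H.hodge) := by
      have := congrArg Subtype.val hp
      simpa using this
    have hDp : ∀ T : Fin 23 → ℤ, D H (Red.comb c p : H.hodge) T = D H P T := by
      intro T
      rw [hp1, D_add_left, D_smul_left, D_h hH, mul_zero, zero_add]
    have hpp : D H (Red.comb c p : H.hodge) (Red.comb c p : H.hodge) = 8 := by
      rw [hDp, D_comm hH, hDp, D_self hH, plane_disc hH hP]
    have hp0 : p ≠ 0 := by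
      rintro rfl
      have h4 : (Red.comb c (0 : Fin n → ℤ)) = 0 := by simp [Red.comb]
      rw [h4] at hpp
      simp [D, ip_zero_left] at hpp
    have hmin : ∀ w, w ≠ 0 → D H (Red.comb c p : H.hodge) (Red.comb c p : H.hodge) ≤
        D H (Red.comb c w : H.hodge) (Red.comb c w : H.hodge) := by
      intro w hw
      have h1 := hB'.pos w hw
      beta_reduce at h1
      rw [hpp]
      rw [D_self hH] at h1 ⊢
      have := disc_val hH (Red.comb c w).2
      omega
    rcases n with _ | m
    · exact absurd (Subsingleton.elim p 0) hp0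
    · obtain ⟨e, he⟩ := Red.exists_basis (n := m) (by rw [finrank_pi, Fintype.card_fin]) hp0
        (Red.prim_of_min hB' hp0 hmin)
      have h1 := Red.det_gram_eq' hB' (Pi.basisFun ℤ (Fin (m + 1))) e
      rw [h1] at hdet
      have h2 : (4 : ℤ) ∣ (Red.gram (fun x y => D H (Red.comb c x : H.hodge)
          (Red.comb c y : H.hodge)) e).det := by
        refine four_dvd_det _ ?_ (fun j => ?_) fun i => ?_
        · simp only [Red.gram, Matrix.of_apply, he, hpp]
          norm_num
        · simp only [Red.gram, Matrix.of_apply, he]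
          rw [hDp]
          exact even_iff_two_dvd.1 (hev _ (Red.comb c _).2)
        · simp only [Red.gram, Matrix.of_apply, he]
          rw [D_comm hH, hDp]
          exact even_iff_two_dvd.1 (hev _ (Red.comb c _).2)
      have h3 : (4 : ℤ) ∣ 3 ^ (m + 1) * discA b := by
        rw [← hdet]
        exact h2.mul_left 3
      have h7 : IsCoprime (4 : ℤ) (3 ^ (m + 1)) := by
        rw [show (4 : ℤ) = 2 ^ 2 by norm_num]
        exact IsCoprime.pow (by norm_num)
      exact h7.dvd_of_dvd_mul_left h3

end Pool.Agent.Q168.LG
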