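import Pool.Agent.Q53.LFB.PlaneK3
import Pool.Agent.Q53.LFB.Disc

/-!
# Divisibility of the discriminant by powers of two
-/

set_option autoImplicit false

namespace Pool.Agent.Q168.LG

open Pool.Agent.Q168.CF4

open Pool.Agent.Q53.LFY Pool.Agent.Q53.LFY.CubLat Pool.Agent.Q53.LFA Pool.Agent.Q53.LFB Module

variable {H : CubLat}

/-- if all discriminants are divisible by four, `2^(r-1)` divides the discriminant of `A(X)` -/
theorem two_pow_dvd (hH : H.IsCubic) {r : ℕ} (b : Basis (Fin r) ℤ H.hodge)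
    (h4 : ∀ v, H.IsHodge v → (4 : ℤ) ∣ H.disc v) : (2 : ℤ) ^ (r - 1) ∣ discA b := by
  match r, b with
  | 0, b => simp
  | n + 1, b =>
    have hB := isForm hH
    have hv : (⟨H.h, hH.h_hodge⟩ : H.hodge) ≠ 0 := by
      intro h0
      have h1 : H.h = 0 := congrArg Subtype.val h0
      have h2 := hH.h_self
      rw [h1, ip_zero_left] at h2
      omega
    obtain ⟨c, hc1, hc2, hB', hdet⟩ := Red.step hB b hv (by
      intro k m x hk h
      obtain ⟨t, -, ht⟩ := hH.h_prim (g := k) (c := m) (z := (x : Fin 23 → ℤ)) hk (by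
        have := congrArg Subtype.val h
        simpa using this)
      exact ⟨t, Subtype.ext (by simpa using ht)⟩)
    have hg : (Red.gram (fun x y : H.hodge => H.ip (x : Fin 23 → ℤ) (y : Fin 23 → ℤ)) b).det =
        discA b := rfl
    simp only [hH.h_self] at hdet
    rw [hg] at hdet
    have hev : ∀ i j : Fin n, ∃ d, Red.gram (fun x y : Fin n → ℤ =>
        3 * H.ip (Red.comb c x : H.hodge) (Red.comb c y : H.hodge) -
        H.ip (Red.comb c x : H.hodge) H.h * H.ip (Red.comb c y : H.hodge) H.h)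
        (Pi.basisFun ℤ (Fin n)) i j = 2 * d := by
      intro i j
      simp only [Red.gram, Matrix.of_apply]
      obtain ⟨x, hx⟩ : ∃ x : H.hodge, x = Red.comb c (Pi.basisFun ℤ (Fin n) i) := ⟨_, rfl⟩
      obtain ⟨y, hy⟩ : ∃ y : H.hodge, y = Red.comb c (Pi.basisFun ℤ (Fin n) j) := ⟨_, rfl⟩
      rw [← hx, ← hy]
      have e := disc_comb2 hH 1 1 (x : Fin 23 → ℤ) (y : Fin 23 → ℤ)
      obtain ⟨a1, h1⟩ := h4 _ (H.isHodge_add (H.isHodge_smul 1 x.2) (H.isHodge_smul 1 y.2))
      obtain ⟨a2, h2⟩ := h4 _ x.2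
      obtain ⟨a3, h3⟩ := h4 _ y.2
      rw [h1, h2, h3] at e
      refine ⟨a1 - a2 - a3, ?_⟩
      have e2 : D H (x : Fin 23 → ℤ) (y : Fin 23 → ℤ) = 2 * (a1 - a2 - a3) := by linarith
      exact e2
    choose d hd using hev
    obtain ⟨G, hG⟩ : ∃ G : Matrix (Fin n) (Fin n) ℤ, G = Red.gram (fun x y : Fin n → ℤ =>
        3 * H.ip (Red.comb c x : H.hodge) (Red.comb c y : H.hodge) -
        H.ip (Red.comb c x : H.hodge) H.h * H.ip (Red.comb c y : H.hodge) H.h)
        (Pi.basisFun ℤ (Fin n)) := ⟨_, rfl⟩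
    rw [← hG] at hdet
    have h5 : G = (2 : ℤ) • Matrix.of d := by
      ext i j
      rw [hG, hd]
      simp
    rw [h5, Matrix.det_smul, Fintype.card_fin] at hdet
    rw [Nat.add_sub_cancel]
    have h6 : (2 : ℤ) ^ n ∣ 3 ^ n * discA b := by
      rw [← hdet]
      exact ⟨3 * (Matrix.of d).det, by ring⟩
    have h7 : IsCoprime ((2 : ℤ) ^ n) (3 ^ n) := IsCoprime.pow (by norm_num)
    exact h7.dvd_of_dvd_mul_left h6

end Pool.Agent.Q168.LG
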